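import Pool.Agent.H9.SE.TarK

/-!
# MP_eaeaf5_lc, module KH2: calculus of closed conditions 2
-/

set_option linter.unusedVariables false

open Ordinal Order Set
open scoped ZFSet

namespace SE

open SF CAA

private theorem kh2_ins (hAA : T_AA) {x s : V} (hx : x ∈ hf) (hs : s ∈ hf) : insert x s ∈ hf := by
  obtain ⟨htr, -, -, -, hfin, hfin2, -⟩ := hAA
  apply hfin
  · intro z hz
    rcases ZFSet.mem_insert_iff.1 hz with rfl | hz
    · exact hx
    · exact htr s hs hz
  · have h1 : ((insert x s : V) : Set V) = insert x (s : Set V) := by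
      ext z
      simp
    rw [h1]
    exact (hfin2 s hs).insert x

private theorem kh2_prt_ins {x y s : V} {F : V → V} (hx : x ∈ hf) :
    Prt (insert (ZFSet.pair x y) s) F ↔ y = F x ∧ Prt s F := by
  constructor
  · intro h
    constructor
    · obtain ⟨h', hh', he⟩ := h _ (ZFSet.mem_insert _ _)
      obtain ⟨rfl, h2⟩ := ZFSet.pair_inj.1 he
      exact h2
    · intro z hz
      exact h z (ZFSet.mem_insert_of_mem _ hz)
  · rintro ⟨rfl, h⟩ z hz
    rcases ZFSet.mem_insert_iff.1 hz with rfl | hz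
    · exact ⟨x, hx, rfl⟩
    · exact h z hz

theorem t_kh2 (hAA : T_AA) : T_KH2 := by
  have hAA' := hAA
  obtain ⟨htr, hn, hom, hpair, hfin, hfin2, hj, thf, hct⟩ := hAA'
  refine ⟨?_, ?_, ?_⟩
  · rintro k P ⟨hk, hk2⟩ ⟨K, hK, hK2⟩
    refine ⟨fun v => (⋃₀ (imS hf fun y => imS (K (cons y v)) fun s =>
      insert (ZFSet.pair (k v) y) s) : ZFSet), ?_, ?_⟩
    · refine (Tm.iUn (f := fun _ _ => hf) (g := fun _ v => imS (K v) fun s =>
        insert (ZFSet.pair (k (fun i => v (i + 1))) (v 0)) s) thf ?_).congr fun M kk v hv => rfl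
      exact (Tm.image (f := fun _ v => K v)
        (g := fun _ w => insert (ZFSet.pair (k (fun i => w (i + 2))) (w 1)) (w 0)) hK
        (Tm.ins (Tm.pair (hk.rn fun i => i + 2) (Tm.var 1)) (Tm.var 0))).congr
          fun M kk v hv => rfl
    · intro v hv
      have hkv := hk2 v hv
      constructor
      · intro s' hs'
        rw [ZFSet.mem_sUnion] at hs'
        obtain ⟨_, hz, hs'⟩ := hs'
        obtain ⟨y, hy, rfl⟩ := mem_imS.1 hz
        obtain ⟨s, hs, rfl⟩ := mem_imS.1 hs'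
        exact kh2_ins hAA (hpair _ hkv _ hy) ((hK2 _ (hv.cons hy)).1 hs)
      · intro F hF
        have hFk := hF _ hkv
        refine ((hK2 _ (hv.cons hFk)).2 F hF).trans ?_
        constructor
        · intro h s' hs' hp
          rw [ZFSet.mem_sUnion] at hs'
          obtain ⟨_, hz, hs'⟩ := hs'
          obtain ⟨y, hy, rfl⟩ := mem_imS.1 hz
          obtain ⟨s, hs, rfl⟩ := mem_imS.1 hs'
          obtain ⟨rfl, hp2⟩ := (kh2_prt_ins hkv).1 hp
          exact h s hs hp2
        · intro h s hs hp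
          refine h (insert (ZFSet.pair (k v) (F (k v))) s) ?_ ((kh2_prt_ins hkv).2 ⟨rfl, hp⟩)
          rw [ZFSet.mem_sUnion]
          exact ⟨_, mem_imS.2 ⟨F (k v), hFk, rfl⟩, mem_imS.2 ⟨s, hs, rfl⟩⟩
  · rintro P τ hτ ⟨K, hK, hK2⟩
    refine ⟨fun v => K fun i => τ i v, ?_, ?_⟩
    · exact (hK.comp (fun i _ v => τ i v) fun i => (hτ i).1).congr fun M kk v hv => rfl
    · intro v hv
      exact hK2 _ fun i => (hτ i).2 v hv
  · rintro P Q ⟨K, hK, hK2⟩ h
    refine ⟨K, hK, fun v hv => ⟨(hK2 v hv).1, fun F hF => ?_⟩⟩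
    rw [← h F v hF hv]
    exact (hK2 v hv).2 F hF

end SE
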