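import Pool.Agent.H9.SE.TarK

/-!
# MP_eaeaf5_lc, module KP1: the truth conditions are closed
-/

set_option linter.unusedVariables false

open Ordinal Order Set
open scoped ZFSet

namespace SE

open SF CAA

/-! ### terms -/

theorem kp1_comp (hAA : T_AA) {q : V} (hq : q ∈ hf) : fst q ∈ hf ∧ snd q ∈ hf := by
  obtain ⟨htr, hn, hom, hpair, hfin, hfin2, hj, thf, hct⟩ := hAA
  by_cases h : ∃ x y, q = ZFSet.pair x y
  · obtain ⟨x, y, rfl⟩ := h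
    rw [fst_pair, snd_pair]
    have h2 : ({x, y} : V) ∈ hf := htr _ hq (by simp [ZFSet.pair])
    exact ⟨htr _ h2 (by simp), htr _ h2 (by simp)⟩
  · rw [fst_eq_of_not h, snd_eq_of_not h]
    have h0 : (∅ : V) ∈ hf := by
      rw [← nS_zero]
      exact hn 0
    exact ⟨h0, h0⟩

theorem kp1_var (i : ℕ) : TmH fun v => v i := ⟨Tm.var i, fun v hv => hv i⟩

theorem kp1_pair (hAA : T_AA) {a b : (ℕ → V) → V} (ha : TmH a) (hb : TmH b) :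
    TmH fun v => ZFSet.pair (a v) (b v) := by
  obtain ⟨htr, hn, hom, hpair, hfin, hfin2, hj, thf, hct⟩ := hAA
  exact ⟨Tm.pair ha.1 hb.1, fun v hv => hpair _ (ha.2 v hv) _ (hb.2 v hv)⟩

theorem kp1_nS (hAA : T_AA) (n : ℕ) : TmH fun _ => nS n := ⟨Tm.nS n, fun v hv => hAA.2.1 n⟩

theorem kp1_emp (hAA : T_AA) : TmH fun _ => (∅ : V) :=
  ⟨Tm.empty, fun v hv => by rw [← nS_zero]; exact hAA.2.1 0⟩

theorem kp1_fst (hAA : T_AA) {a : (ℕ → V) → V} (ha : TmH a) : TmH fun v => fst (a v) :=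
  ⟨Tm.fst ha.1, fun v hv => (kp1_comp hAA (ha.2 v hv)).1⟩

theorem kp1_snd (hAA : T_AA) {a : (ℕ → V) → V} (ha : TmH a) : TmH fun v => snd (a v) :=
  ⟨Tm.snd ha.1, fun v hv => (kp1_comp hAA (ha.2 v hv)).2⟩

theorem kp1_ky (hAA : T_AA) (n : ℕ) {a : (ℕ → V) → V} (ha : TmH a) :
    TmH fun v => ky n (a v) := kp1_pair hAA (kp1_nS hAA n) ha

theorem kp1_psh (hAA : T_AA) {a b : (ℕ → V) → V} (ha : TmH a) (hb : TmH b) :
    TmH fun v => psh (a v) (b v) :=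
  kp1_pair hAA (kp1_fst hAA hb) (kp1_pair hAA ha (kp1_snd hAA hb))

theorem kp1_dr (hAA : T_AA) (n : ℕ) {s : V} (hs : s ∈ hf) : dr n s ∈ hf := by
  induction n with
  | zero => exact hs
  | succ n ih =>
    rw [dr_succ]
    exact (kp1_comp hAA ih).2

theorem kp1_vn (hAA : T_AA) {a b : (ℕ → V) → V} (ha : TmH a) (hb : TmH b) :
    TmH fun v => vn (nn (a v)) (b v) := by
  refine ⟨Tm.vn ha.1 hb.1, fun v hv => ?_⟩
  have h1 := kp1_comp hAA (hb.2 v hv)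
  show sel (dr (nn (a v)) (snd (b v)) = ∅) (fst (b v)) (fst (dr (nn (a v)) (snd (b v)))) ∈ hf
  by_cases h : dr (nn (a v)) (snd (b v)) = ∅
  · rw [sel_pos h]
    exact h1.1
  · rw [sel_neg h]
    exact (kp1_comp hAA (kp1_dr hAA _ h1.2)).1

theorem kp1_pl (hAA : T_AA) {a b : (ℕ → V) → V} (ha : TmH a) (hb : TmH b) :
    TmH fun v => pl ∅ [a v, b v] :=
  kp1_pair hAA (kp1_emp hAA) (kp1_pair hAA ha (kp1_pair hAA hb (kp1_emp hAA)))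

theorem kp1_cmem (hAA : T_AA) : TmH fun _ => cd (.mem 0 1) :=
  kp1_pair hAA (kp1_nS hAA 0) (kp1_pair hAA (kp1_nS hAA 0) (kp1_nS hAA 1))

theorem kp1_ceq (hAA : T_AA) : TmH fun _ => cd (.eq 0 1) :=
  kp1_pair hAA (kp1_nS hAA 1) (kp1_pair hAA (kp1_nS hAA 0) (kp1_nS hAA 1))

/-! ### clopen conditions -/

/-- closed and open -/
def Cl2 (P : (V → V) → (ℕ → V) → Prop) : Prop := Cls P ∧ Cls fun F v => ¬ P F v

theorem kp1_at (h1 : T_KH1) {k b : (ℕ → V) → V} (hk : TmH k) (hb : TmH b) :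
    Cl2 fun F v => F (k v) = b v := by
  obtain ⟨a1, a2, a3, a4, a5, a6, a7⟩ := h1
  exact ⟨a6 k b hk hb, a7 k b hk hb⟩

theorem kp1_tv (hAA : T_AA) (h1 : T_KH1) {c t : (ℕ → V) → V} (hc : TmH c) (ht : TmH t) :
    Cl2 fun F v => tv F (c v) (t v) :=
  kp1_at h1 (kp1_ky hAA 0 (kp1_pair hAA hc ht)) (kp1_nS hAA 1)

theorem kp1_em (hAA : T_AA) (h1 : T_KH1) {m n : (ℕ → V) → V} (hm : TmH m) (hn : TmH n) :
    Cl2 fun F v => em F (m v) (n v) :=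
  kp1_tv hAA h1 (kp1_cmem hAA) (kp1_pl hAA hm hn)

theorem kp1_eqv (hAA : T_AA) (h1 : T_KH1) {m n : (ℕ → V) → V} (hm : TmH m) (hn : TmH n) :
    Cl2 fun F v => eqv F (m v) (n v) :=
  kp1_tv hAA h1 (kp1_ceq hAA) (kp1_pl hAA hm hn)

theorem kp1_congr (h2 : T_KH2) {P Q : (V → V) → (ℕ → V) → Prop} (hP : Cls P)
    (h : ∀ F v, P F v ↔ Q F v) : Cls Q :=
  h2.2.2 P Q hP fun F v _ _ => h F v

theorem kp1_and (h1 : T_KH1) (h2 : T_KH2) {P Q : (V → V) → (ℕ → V) → Prop} (hP : Cl2 P)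
    (hQ : Cl2 Q) : Cl2 fun F v => P F v ∧ Q F v := by
  obtain ⟨a1, a2, a3, a4, a5, a6, a7⟩ := h1
  exact ⟨a1 _ _ hP.1 hQ.1, kp1_congr h2 (a2 _ _ hP.2 hQ.2) fun F v => by tauto⟩

theorem kp1_not (h2 : T_KH2) {P : (V → V) → (ℕ → V) → Prop} (hP : Cl2 P) :
    Cl2 fun F v => ¬ P F v :=
  ⟨hP.2, kp1_congr h2 hP.1 fun F v => not_not.symm⟩

theorem kp1_imp (h1 : T_KH1) (h2 : T_KH2) {P Q : (V → V) → (ℕ → V) → Prop} (hP : Cl2 P)
    (hQ : Cls Q) : Cls fun F v => P F v → Q F v := by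
  obtain ⟨a1, a2, a3, a4, a5, a6, a7⟩ := h1
  exact kp1_congr h2 (a2 _ _ hP.2 hQ) fun F v => by tauto

theorem kp1_iff (h1 : T_KH1) (h2 : T_KH2) {P Q : (V → V) → (ℕ → V) → Prop} (hP : Cl2 P)
    (hQ : Cl2 Q) : Cls fun F v => (P F v ↔ Q F v) := by
  obtain ⟨a1, a2, a3, a4, a5, a6, a7⟩ := id h1
  refine kp1_congr h2 (a1 _ _ (kp1_imp h1 h2 hP hQ.1) (kp1_imp h1 h2 hQ hP.1)) fun F v => ?_
  tauto

theorem kp1_ball (h1 : T_KH1) (h2 : T_KH2) {S : V} (hS : S ⊆ hf) (tS : Tm ZFm fun _ _ => S)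
    {P : (V → V) → (ℕ → V) → Prop} (hP : Cls P) : Cls fun F v => ∀ h ∈ S, P F (cons h v) := by
  obtain ⟨a1, a2, a3, a4, a5, a6, a7⟩ := id h1
  refine kp1_congr h2 (a3 _ (a4 (fun v => v 0 ∈ S) P (Dfb.mem (Tm.var 0) tS) hP)) fun F v => ?_
  constructor
  · intro h x hx
    exact h x (hS hx) hx
  · intro h x _ hx
    exact h x hx

/-! ### codes and assignments are hereditarily finite -/

theorem kp1_CD (hAA : T_AA) : CD ⊆ hf := by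
  obtain ⟨htr, hn, hom, hpair, hfin, hfin2, hj, thf, hct⟩ := hAA
  intro c hc
  obtain ⟨φ, rfl⟩ := mem_CD.1 hc
  clear hc
  induction φ with
  | mem i j => exact hpair _ (hn _) _ (hpair _ (hn _) _ (hn _))
  | eq i j => exact hpair _ (hn _) _ (hpair _ (hn _) _ (hn _))
  | prd i => exact hpair _ (hn _) _ (hn _)
  | neg φ ih => exact hpair _ (hn _) _ ih
  | and φ ψ ih1 ih2 => exact hpair _ (hn _) _ (hpair _ ih1 _ ih2)
  | ex φ ih => exact hpair _ (hn _) _ ih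

theorem kp1_lc (hAA : T_AA) {l : List V} (hl : ∀ p ∈ l, p ∈ hf) : lc l ∈ hf := by
  obtain ⟨htr, hn, hom, hpair, hfin, hfin2, hj, thf, hct⟩ := hAA
  induction l with
  | nil =>
    show (∅ : V) ∈ hf
    rw [← nS_zero]
    exact hn 0
  | cons a l ih =>
    exact hpair _ (hl a (by simp)) _ (ih fun p hp => hl p (by simp [hp]))

theorem kp1_PL (hAA : T_AA) : PL hf ⊆ hf := by
  intro t ht
  obtain ⟨d, l, rfl, hd, hl⟩ := mem_PL.1 ht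
  exact hAA.2.2.2.1 _ hd _ (kp1_lc hAA hl)

/-! ### the theorem -/

theorem t_kp1 (hAA : T_AA) (h1 : T_KH1) (h2 : T_KH2) : T_KP1 := by
  obtain ⟨a1, a2, a3, a4, a5, a6, a7⟩ := id h1
  obtain ⟨htr, hn, hom, hpair, hfin, hfin2, hj, thf, hct⟩ := id hAA
  have bom : ∀ {P : (V → V) → (ℕ → V) → Prop}, Cls P → Cls fun F v => ∀ h ∈ om, P F (cons h v) :=
    fun hP => kp1_ball h1 h2 hom Tm.om hP
  have bCD : ∀ {P : (V → V) → (ℕ → V) → Prop}, Cls P → Cls fun F v => ∀ h ∈ CD, P F (cons h v) :=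
    fun hP => kp1_ball h1 h2 (kp1_CD hAA) Tm.CD hP
  have bPL : ∀ {P : (V → V) → (ℕ → V) → Prop}, Cls P →
      Cls fun F v => ∀ h ∈ PL hf, P F (cons h v) :=
    fun hP => kp1_ball h1 h2 (kp1_PL hAA) (Tm.PL thf) hP
  have bhf : ∀ {P : (V → V) → (ℕ → V) → Prop}, Cls P → Cls fun F v => ∀ h ∈ hf, P F (cons h v) :=
    fun hP => a3 _ hP
  have v0 := kp1_var 0
  have v1 := kp1_var 1
  have v2 := kp1_var 2
  have n0 := kp1_nS hAA 0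
  have n1 := kp1_nS hAA 1
  have n2 := kp1_nS hAA 2
  have n3 := kp1_nS hAA 3
  have n4 := kp1_nS hAA 4
  have n5 := kp1_nS hAA 5
  have c1 : Cls fun F v => ∀ i ∈ om, ∀ j ∈ om, ∀ t ∈ PL hf,
      (tv F (ZFSet.pair (nS 0) (ZFSet.pair i j)) t ↔ em F (vn (nn i) t) (vn (nn j) t)) :=
    bom (bom (bPL (kp1_iff h1 h2
      (kp1_tv hAA h1 (kp1_pair hAA n0 (kp1_pair hAA v2 v1)) v0)
      (kp1_em hAA h1 (kp1_vn hAA v2 v0) (kp1_vn hAA v1 v0)))))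
  have c2 : Cls fun F v => ∀ i ∈ om, ∀ j ∈ om, ∀ t ∈ PL hf,
      (tv F (ZFSet.pair (nS 1) (ZFSet.pair i j)) t ↔ eqv F (vn (nn i) t) (vn (nn j) t)) :=
    bom (bom (bPL (kp1_iff h1 h2
      (kp1_tv hAA h1 (kp1_pair hAA n1 (kp1_pair hAA v2 v1)) v0)
      (kp1_eqv hAA h1 (kp1_vn hAA v2 v0) (kp1_vn hAA v1 v0)))))
  have c3 : Cls fun F v => ∀ i ∈ om, ∀ t ∈ PL hf, ¬ tv F (ZFSet.pair (nS 2) i) t :=
    bom (bPL (kp1_tv hAA h1 (kp1_pair hAA n2 v1) v0).2)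
  have c4 : Cls fun F v => ∀ c ∈ CD, ∀ t ∈ PL hf,
      (tv F (ZFSet.pair (nS 3) c) t ↔ ¬ tv F c t) :=
    bCD (bPL (kp1_iff h1 h2 (kp1_tv hAA h1 (kp1_pair hAA n3 v1) v0)
      (kp1_not h2 (kp1_tv hAA h1 v1 v0))))
  have c5 : Cls fun F v => ∀ c ∈ CD, ∀ d ∈ CD, ∀ t ∈ PL hf,
      (tv F (ZFSet.pair (nS 4) (ZFSet.pair c d)) t ↔ tv F c t ∧ tv F d t) :=
    bCD (bCD (bPL (kp1_iff h1 h2
      (kp1_tv hAA h1 (kp1_pair hAA n4 (kp1_pair hAA v2 v1)) v0)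
      (kp1_and h1 h2 (kp1_tv hAA h1 v2 v0) (kp1_tv hAA h1 v1 v0)))))
  have c6 : Cls fun F v => ∀ c ∈ CD, ∀ t ∈ PL hf,
      tv F (ZFSet.pair (nS 5) c) t → tv F c (psh (F (ky 13 (ZFSet.pair c t))) t) := by
    refine bCD (bPL (kp1_imp h1 h2 (kp1_tv hAA h1 (kp1_pair hAA n5 v1) v0)
      (Q := fun F v => tv F (v 1) (psh (F (ky 13 (ZFSet.pair (v 1) (v 0)))) (v 0))) ?_))
    exact h2.1 (fun v => ky 13 (ZFSet.pair (v 1) (v 0)))
      (fun F v => tv F (v 2) (psh (v 0) (v 1))) (kp1_ky hAA 13 (kp1_pair hAA v1 v0))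
      (kp1_tv hAA h1 v2 (kp1_psh hAA v0 v1)).1
  have c7 : Cls fun F v => ∀ c ∈ CD, ∀ t ∈ PL hf, ∀ y ∈ hf,
      tv F c (psh y t) → tv F (ZFSet.pair (nS 5) c) t :=
    bCD (bPL (bhf (kp1_imp h1 h2 (kp1_tv hAA h1 v2 (kp1_psh hAA v0 v1))
      (kp1_tv hAA h1 (kp1_pair hAA n5 v2) v1).1)))
  refine kp1_congr h2 (a1 _ _ c1 (a1 _ _ c2 (a1 _ _ c3 (a1 _ _ c4 (a1 _ _ c5
    (a1 _ _ c6 c7)))))) fun F v => ?_
  constructor
  · rintro ⟨b1, b2, b3, b4, b5, b6, b7⟩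
    refine ⟨?_, ?_, ?_, b4, b5, b6, b7⟩
    · intro i j t ht
      have := b1 (nS i) (nS_mem_om i) (nS j) (nS_mem_om j) t ht
      rw [nn_nS, nn_nS] at this
      exact this
    · intro i j t ht
      have := b2 (nS i) (nS_mem_om i) (nS j) (nS_mem_om j) t ht
      rw [nn_nS, nn_nS] at this
      exact this
    · intro i t ht
      exact b3 (nS i) (nS_mem_om i) t ht
  · rintro ⟨b1, b2, b3, b4, b5, b6, b7⟩
    refine ⟨?_, ?_, ?_, b4, b5, b6, b7⟩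
    · intro i hi j hj t ht
      obtain ⟨i, rfl⟩ := mem_om.1 hi
      obtain ⟨j, rfl⟩ := mem_om.1 hj
      rw [nn_nS, nn_nS]
      exact b1 i j t ht
    · intro i hi j hj t ht
      obtain ⟨i, rfl⟩ := mem_om.1 hi
      obtain ⟨j, rfl⟩ := mem_om.1 hj
      rw [nn_nS, nn_nS]
      exact b2 i j t ht
    · intro i hi t ht
      obtain ⟨i, rfl⟩ := mem_om.1 hi
      exact b3 i t ht

end SE
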