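import Pool.Agent.H45.SE.TarT

/-! # SE, module TBc: the identity map -/

set_option linter.unusedVariables false

open Ordinal Order Set
open scoped ZFSet

namespace SE

open SF

/-- TBc -/
theorem t_tbc (BC : T_BC) (BJ : T_BJ) (TBa : T_TBa) (TA : T_TA) : T_TBc := by
  intro D ok s hs hc p hp
  have hZ : ZFm D.N := ok.zfc.toZFCm.toZFm
  obtain ⟨-, hTr, hHN, -, hG⟩ := BJ D ok
  have hpos := BC.2.2.2.1
  obtain ⟨-, -, -, -, hid, hlast⟩ := TBa
  obtain ⟨hI, hinj, hfn⟩ := hlast s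
  have hsN : D.N s := hHN s hs
  have hidN : D.N (idm s) := TA.2.2.2.2.2.1 D.N hZ (fun _ => s) (fun _ => hsN)
  have hsub : ∀ i ∈ s, Idn (idm s) (lS i) := fun i hi j hj => hI j ((hc i hi).2 hj)
  have hmv : ∀ i ∈ s, ∀ q ∈ Pos D.L (lS i), mv (idm s) q = q := by
    intro i hi q hq
    have h := (hpos D.L (lS i) q).1 hq
    exact (hid (idm s) (lS i) (hsub i hi)).2 q h.1 h.2.1
  have hmvs : ∀ q ∈ Pos D.L s, mv (idm s) q = q := by
    intro q hq
    have h := (hpos D.L s q).1 hq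
    exact (hid (idm s) s hI).2 q h.1 h.2.1
  refine ⟨⟨hidN, hs, hs, hc, hc, ⟨hfn, hinj, fun j hj => ⟨j, hj, hI j hj⟩, ?_, hp, ?_⟩⟩, ?_,
    hI, ?_⟩
  · intro i hi
    rw [hI i hi, (hid (idm s) (lS i) (hsub i hi)).1]
  · intro i hi q hq _ b
    rw [hI i hi, hmv i hi q hq]
  · intro i hi q hq _ b
    rw [hI i hi, hmv i hi q hq]
  · intro G hGn hpG
    obtain ⟨-, ⟨g1, -, g3, g4, -⟩, -⟩ := (hG s hsN hc).2 G hGn
    ext q'
    unfold gp
    rw [ZFSet.mem_sep]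
    constructor
    · rintro ⟨h1, q, hq, -, h3⟩
      rw [hmvs q (g1 hq)] at h3
      exact g3 q hq q' h1 h3
    · intro hq'
      refine ⟨g1 hq', jn q' p, (g4 p hpG q' hq').2.1, (g4 p hpG q' hq').2.2.2, ?_⟩
      rw [hmvs _ (g1 (g4 p hpG q' hq').2.1)]
      exact (g4 p hpG q' hq').2.2.1

end SE
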