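import Pool.Agent.H45.SE.TarT

/-! # SE, module TF: secured facts are preserved by isomorphisms -/

set_option linter.unusedVariables false

open Ordinal Order Set
open scoped ZFSet

namespace SE

open SF

/-- TF -/
theorem t_tf (TBe : T_TBe) (TCa : T_TCa) (TFa : T_TFa) : T_TF := by
  intro D ok π ρ ρ' p hN hZ G hG hp
  obtain ⟨iN, hC⟩ := TCa D ok π ρ ρ' p hN
  obtain ⟨c1, c2, c3, c4, c5⟩ := hC G hG hp
  obtain ⟨-, -, -, hag, -⟩ := TBe D.L π ρ ρ' p hN.c hN.c' hN.i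
  have h1 : ∀ a x, D.Sec ρ' (gp D.L π p ρ' G) a x ↔ D.Sec ρ G a x := by
    intro a x
    constructor
    · intro h
      have h2 := TFa D ok (inv π) ρ' ρ (mv π p) iN (hag hZ) _ c1 c2 a x h
      rw [c5] at h2
      exact h2
    · exact TFa D ok π ρ ρ' p hN hZ G hG hp a x
  refine ⟨h1, ?_⟩
  intro a y
  constructor
  · rintro ⟨v, hv, hr, hs⟩
    exact ⟨v, (c4 v).1 hv, hr, (h1 _ _).1 hs⟩
  · rintro ⟨v, hv, hr, hs⟩
    exact ⟨v, (c4 v).2 hv, hr, (h1 _ _).2 hs⟩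

end SE
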